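import Pool.Agent.V11149.FlowZ2

set_option autoImplicit false

namespace Pool.Agent.Results.MP_12428a_co.RankTwoFourFlow

open Finset Pool.Agent.V11149.FlowZ2

/-- the non-loop edges with tail `v`. -/
def Outgoing {V E : Type} [Fintype E] [DecidableEq V] (tail head : E → V) (v : V) : Finset E :=
  univ.filter (fun e => tail e = v ∧ head e ≠ v)

/-- the non-loop edges with head `v`. -/
def Incoming {V E : Type} [Fintype E] [DecidableEq V] (tail head : E → V) (v : V) : Finset E :=
  univ.filter (fun e => head e = v ∧ tail e ≠ v)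

/-- `φ` is an `A`-flow on the graph with vertices `V`, edges `E`, oriented by `tail` and `head`. -/
def IsFlow {V E A : Type} [Fintype E] [DecidableEq V] [AddCommGroup A] (tail head : E → V)
    (φ : E → A) : Prop :=
  (∀ e, φ e ≠ 0) ∧ ∀ v, ∑ e ∈ Outgoing tail head v, φ e = ∑ e ∈ Incoming tail head v, φ e

/-- The balanced vector of the vertex `v`, indexed by the distinct values of `φ`. -/
noncomputable def balanced {V E : Type} [Fintype E] [DecidableEq V] (tail head : E → V)
    (φ : E → EuclideanSpace ℝ (Fin 3)) (v : V) (i : Set.range φ) : ℚ :=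
  (Nat.card {e : E // e ∈ Outgoing tail head v ∧ φ e = i} : ℚ) -
    (Nat.card {e : E // e ∈ Incoming tail head v ∧ φ e = i} : ℚ)

lemma bd_eq {V E R : Type} [Fintype E] [DecidableEq V] [AddCommGroup R] (t h : E → V) (c : E → R)
    (w : V) : bd t h c w = ∑ e ∈ Outgoing t h w, c e - ∑ e ∈ Incoming t h w, c e := by
  unfold bd Outgoing Incoming
  rw [Finset.sum_filter, Finset.sum_filter, ← Finset.sum_sub_distrib]
  refine Finset.sum_congr rfl (fun e _ => ?_)
  by_cases h1 : t e = w <;> by_cases h2 : h e = w <;> simp [h1, h2]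

/-- assignment of nonzero values with prescribed sum. -/
lemma assign {ι : Type} [DecidableEq ι] (S : Finset ι) : S.Nonempty →
    ∀ W : ZMod 2 × ZMod 2, (W ≠ 0 ∨ 2 ≤ S.card) →
    ∃ w : ι → ZMod 2 × ZMod 2, (∀ i, w i ≠ 0) ∧ ∑ i ∈ S, w i = W := by
  induction S using Finset.induction_on with
  | empty => intro h; exact absurd h Finset.not_nonempty_empty
  | insert a S ha ih =>
    intro _ W hW
    by_cases hS : S.Nonempty
    · have key : ∀ W : ZMod 2 × ZMod 2, ∃ x : ZMod 2 × ZMod 2, x ≠ 0 ∧ W - x ≠ 0 := by decide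
      obtain ⟨x, hx, hx2⟩ := key W
      obtain ⟨w, hw, hw2⟩ := ih hS (W - x) (Or.inl hx2)
      refine ⟨Function.update w a x, ?_, ?_⟩
      · intro i
        by_cases h : i = a
        · subst h; rw [Function.update_self]; exact hx
        · rw [Function.update_of_ne h]; exact hw i
      · rw [Finset.sum_insert ha, Function.update_self]
        have : ∑ i ∈ S, Function.update w a x i = ∑ i ∈ S, w i := by
          refine Finset.sum_congr rfl (fun i hi => ?_)
          rw [Function.update_of_ne]
          rintro rfl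
          exact ha hi
        rw [this, hw2]; abel
    · rw [Finset.not_nonempty_iff_eq_empty] at hS
      subst hS
      have hW0 : W ≠ 0 := by
        rcases hW with h | h
        · exact h
        · simp at h
      refine ⟨fun _ => W, fun _ => hW0, by simp⟩

/-- The alternatives for a family of columns. -/
lemma columns {ι : Type} [Fintype ι] [DecidableEq ι] (col : ι → ZMod 2 × ZMod 2) :
    (∃ w : ι → ZMod 2 × ZMod 2, (∀ i, w i ≠ 0) ∧ ∑ i, (col i).1 • w i = 0 ∧
      ∑ i, (col i).2 • w i = 0) ∨
    (∃ (j : ι) (d : ZMod 2 × ZMod 2), ∀ i, i ≠ j → col i = 0 ∨ col i = d) := by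
  let S : ZMod 2 × ZMod 2 → Finset ι := fun x => univ.filter (fun i => col i = x)
  have hmem : ∀ x i, i ∈ S x ↔ col i = x := by intro x i; simp [S]
  -- combination
  have comb : ∀ W : ZMod 2 × ZMod 2, (∀ x : ZMod 2 × ZMod 2, x ≠ 0 →
      ∃ w : ι → ZMod 2 × ZMod 2, (∀ i, w i ≠ 0) ∧ ∑ i ∈ S x, w i = W) →
      ∃ w : ι → ZMod 2 × ZMod 2, (∀ i, w i ≠ 0) ∧ ∑ i, (col i).1 • w i = 0 ∧
      ∑ i, (col i).2 • w i = 0 := by
    intro W hW
    choose w hw1 hw2 using hW
    refine ⟨fun i => if hi : col i ≠ 0 then w (col i) hi i else (1, 0), ?_, ?_⟩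
    · intro i
      by_cases hi : col i ≠ 0
      · beta_reduce; rw [dif_pos hi]; exact hw1 _ hi i
      · beta_reduce; rw [dif_neg hi]; decide
    · set u : ι → ZMod 2 × ZMod 2 := fun i => if hi : col i ≠ 0 then w (col i) hi i else (1, 0)
        with hu
      have hsum : ∀ x : ZMod 2 × ZMod 2, x ≠ 0 → ∑ i ∈ S x, u i = W := by
        intro x hx
        rw [← hw2 x hx]
        refine Finset.sum_congr rfl (fun i hi => ?_)
        rw [hmem] at hi
        subst hi
        rw [hu]
        simp only
        rw [dif_pos hx]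
      have hfib : ∀ a : ZMod 2 × ZMod 2 → ZMod 2, ∑ i, a (col i) • u i =
          ∑ x, a x • ∑ i ∈ S x, u i := by
        intro a
        rw [← Finset.sum_fiberwise (s := (univ : Finset ι)) (g := col)]
        refine Finset.sum_congr rfl (fun x _ => ?_)
        rw [Finset.smul_sum]
        refine Finset.sum_congr rfl (fun i hi => ?_)
        rw [Finset.mem_filter] at hi
        rw [hi.2]
      have huniv : (univ : Finset (ZMod 2 × ZMod 2)) = {(0, 0), (1, 0), (0, 1), (1, 1)} := by decide
      have hWW : W + W = 0 := by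
        have : ∀ W : ZMod 2 × ZMod 2, W + W = 0 := by decide
        exact this W
      constructor
      · rw [hfib (fun x => x.1), huniv, Finset.sum_insert (by decide), Finset.sum_insert (by decide),
          Finset.sum_insert (by decide), Finset.sum_singleton]
        rw [hsum (1, 0) (by decide), hsum (0, 1) (by decide), hsum (1, 1) (by decide)]
        simp [hWW]
      · rw [hfib (fun x => x.2), huniv, Finset.sum_insert (by decide), Finset.sum_insert (by decide),
          Finset.sum_insert (by decide), Finset.sum_singleton]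
        rw [hsum (1, 0) (by decide), hsum (0, 1) (by decide), hsum (1, 1) (by decide)]
        simp [hWW]
  by_cases hall : ∀ x : ZMod 2 × ZMod 2, x ≠ 0 → (S x).Nonempty
  · left
    exact comb (1, 0) (fun x hx => assign (S x) (hall x hx) (1, 0) (Or.inl (by decide)))
  · by_cases hone : ∀ x : ZMod 2 × ZMod 2, x ≠ 0 → (S x).card ≠ 1
    · left
      apply comb 0
      intro x hx
      by_cases hne : (S x).Nonempty
      · have h1 := hone x hx
        have h2 := Finset.card_pos.mpr hne
        exact assign (S x) hne 0 (Or.inr (by omega))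
      · rw [Finset.not_nonempty_iff_eq_empty] at hne
        refine ⟨fun _ => (1, 0), fun _ => (by decide : ((1, 0) : ZMod 2 × ZMod 2) ≠ 0),
          by rw [hne]; simp⟩
    · right
      push Not at hall hone
      obtain ⟨x0, hx0, hS0⟩ := hall
      obtain ⟨x1, hx1, hS1⟩ := hone
      obtain ⟨j, hj⟩ := Finset.card_eq_one.mp hS1
      have hne : x0 ≠ x1 := by
        rintro rfl
        rw [hj] at hS0
        simp at hS0
      have key : ∀ x0 x1 : ZMod 2 × ZMod 2, x0 ≠ 0 → x1 ≠ 0 → x0 ≠ x1 →
          ∀ y, y ≠ x0 → y ≠ x1 → y = 0 ∨ y = x0 + x1 := by decide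
      refine ⟨j, x0 + x1, fun i hij => ?_⟩
      apply key x0 x1 hx0 hx1 hne
      · intro h
        have : i ∈ S x0 := (hmem _ _).mpr h
        rw [hS0] at this
        exact absurd this (Finset.notMem_empty _)
      · intro h
        have : i ∈ S x1 := (hmem _ _).mpr h
        rw [hj, Finset.mem_singleton] at this
        exact hij this

/-- vectors independent modulo 2 are independent over the rationals. -/
lemma indep_rat {κ ι : Type} [Fintype κ] (e : κ → ι → ℤ)
    (h : LinearIndependent (ZMod 2) (fun k i => (e k i : ZMod 2))) :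
    LinearIndependent ℚ (fun k i => (e k i : ℚ)) := by
  rw [← LinearIndependent.iff_fractionRing ℤ ℚ, Fintype.linearIndependent_iff]
  rw [Fintype.linearIndependent_iff] at h
  have key : ∀ (n : ℕ) (g : κ → ℤ), ∑ k, (g k).natAbs ≤ n →
      (∀ i, ∑ k, g k * e k i = 0) → ∀ k, g k = 0 := by
    intro n
    induction n with
    | zero =>
      intro g hg _ k
      have := Finset.sum_eq_zero_iff.mp (Nat.le_zero.mp hg) k (Finset.mem_univ k)
      exact Int.natAbs_eq_zero.mp this
    | succ n ih =>
      intro g hg h0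
      have h1 : ∀ k, ((g k : ℤ) : ZMod 2) = 0 := by
        apply h (fun k => ((g k : ℤ) : ZMod 2))
        funext i
        rw [Finset.sum_apply]
        simp only [Pi.smul_apply, smul_eq_mul, Pi.zero_apply]
        have := congrArg (fun z : ℤ => (z : ZMod 2)) (h0 i)
        simp only [Int.cast_zero, Int.cast_sum, Int.cast_mul] at this
        exact this
      have h2 : ∀ k, ∃ m, g k = 2 * m := by
        intro k
        have := h1 k
        rw [ZMod.intCast_zmod_eq_zero_iff_dvd] at this
        obtain ⟨m, hm⟩ := this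
        exact ⟨m, by exact_mod_cast hm⟩
      choose g' hg' using h2
      by_cases hz : ∀ k, g k = 0
      · exact hz
      · exfalso
        push Not at hz
        obtain ⟨k0, hk0⟩ := hz
        apply hk0
        have h3 : ∀ k, g' k = 0 := by
          apply ih g'
          · have h4 : ∑ k, (g k).natAbs = 2 * ∑ k, (g' k).natAbs := by
              rw [Finset.mul_sum]
              refine Finset.sum_congr rfl (fun k _ => ?_)
              rw [hg' k, Int.natAbs_mul]; rfl
            have h5 : 0 < ∑ k, (g k).natAbs := by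
              apply Finset.sum_pos' (fun _ _ => Nat.zero_le _)
              exact ⟨k0, Finset.mem_univ _, Int.natAbs_pos.mpr hk0⟩
            omega
          · intro i
            have h6 := h0 i
            simp only [hg', mul_assoc] at h6
            rw [← Finset.mul_sum] at h6
            omega
        rw [hg' k0, h3 k0, mul_zero]
  intro g hg
  apply key _ g le_rfl
  intro i
  have h7 := congrFun hg i
  rw [Finset.sum_apply] at h7
  simp only [Pi.smul_apply, Pi.zero_apply, zsmul_eq_mul] at h7
  exact_mod_cast h7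

lemma f2rank {V ι : Type} [Fintype V] [Fintype ι] (eps : V → ι → ℤ)
    (hr : Module.finrank ℚ (Submodule.span ℚ (Set.range (fun v i => (eps v i : ℚ)))) ≤ 2) :
    ∃ c1 c2 : ι → ZMod 2, ∀ v, ∃ a b : ZMod 2, ∀ i, (eps v i : ZMod 2) = a * c1 i + b * c2 i := by
  classical
  obtain ⟨κ, a, ha, hspan, hli⟩ := exists_linearIndependent' (ZMod 2)
    (fun (v : V) (i : ι) => (eps v i : ZMod 2))
  have : Finite κ := Finite.of_injective a ha
  have : Fintype κ := Fintype.ofFinite κ
  have hli2 := indep_rat (fun k i => eps (a k) i) hli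
  have hcard : Fintype.card κ ≤ 2 := by
    rw [← finrank_span_eq_card hli2]
    refine le_trans (Submodule.finrank_mono (Submodule.span_mono ?_)) hr
    rintro x ⟨k, rfl⟩
    exact ⟨a k, rfl⟩
  -- two vectors whose span contains everything
  obtain ⟨x, y, hxy⟩ : ∃ x y : ι → ZMod 2, Set.range ((fun (v : V) (i : ι) => (eps v i : ZMod 2)) ∘ a) ⊆
      {x, y} := by
    have hc : Fintype.card κ = 0 ∨ Fintype.card κ = 1 ∨ Fintype.card κ = 2 := by omega
    rcases hc with hc | hc | hc
    · rw [Fintype.card_eq_zero_iff] at hc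
      refine ⟨0, 0, ?_⟩
      rintro z ⟨k, rfl⟩
      exact (hc.false k).elim
    · rw [Fintype.card_eq_one_iff] at hc
      obtain ⟨k0, hk0⟩ := hc
      refine ⟨0, ((fun (v : V) (i : ι) => (eps v i : ZMod 2)) ∘ a) k0, ?_⟩
      rintro z ⟨k, rfl⟩
      rw [hk0 k]; simp
    · rw [← Finset.card_univ, Finset.card_eq_two] at hc
      obtain ⟨k0, k1, -, hk⟩ := hc
      refine ⟨((fun (v : V) (i : ι) => (eps v i : ZMod 2)) ∘ a) k0,
        ((fun (v : V) (i : ι) => (eps v i : ZMod 2)) ∘ a) k1, ?_⟩
      rintro z ⟨k, rfl⟩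
      have : k ∈ ({k0, k1} : Finset κ) := by rw [← hk]; exact Finset.mem_univ _
      rw [Finset.mem_insert, Finset.mem_singleton] at this
      rcases this with rfl | rfl <;> simp
  refine ⟨x, y, fun v => ?_⟩
  have hv : (fun (v : V) (i : ι) => (eps v i : ZMod 2)) v ∈ Submodule.span (ZMod 2)
      (Set.range ((fun (v : V) (i : ι) => (eps v i : ZMod 2)) ∘ a)) := by
    rw [hspan]; exact Submodule.subset_span ⟨v, rfl⟩
  have hv2 := Submodule.span_mono hxy hv
  rw [Submodule.mem_span_pair] at hv2
  obtain ⟨p, q, hpq⟩ := hv2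
  refine ⟨p, q, fun i => ?_⟩
  have := congrFun hpq i
  simp only [Pi.add_apply, Pi.smul_apply, smul_eq_mul] at this
  exact this.symm

section Main

variable {V E : Type} [Fintype V] [Fintype E] [DecidableEq V] (t h : E → V)
  (φ : E → EuclideanSpace ℝ (Fin 3))

open Classical in
/-- integer balanced vectors. -/
noncomputable def eps (v : V) (i : Set.range φ) : ℤ :=
  bd t h (fun e => if φ e = (i : EuclideanSpace ℝ (Fin 3)) then (1 : ℤ) else 0) v

/-- class of an edge. -/
def cl (e : E) : Set.range φ := ⟨φ e, e, rfl⟩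

omit [Fintype V] [Fintype E] [DecidableEq V] in
lemma cl_eq (e : E) (i : Set.range φ) : φ e = (i : EuclideanSpace ℝ (Fin 3)) ↔ i = cl φ e := by
  rw [Subtype.ext_iff]
  exact eq_comm

omit [Fintype V] in
lemma balanced_eq (v : V) (i : Set.range φ) : balanced t h φ v i = (eps t h φ v i : ℚ) := by
  classical
  unfold balanced eps
  rw [bd_eq, Finset.sum_boole, Finset.sum_boole]
  rw [Nat.subtype_card ((Outgoing t h v).filter (fun e => φ e = i)) (fun e => by simp),
    Nat.subtype_card ((Incoming t h v).filter (fun e => φ e = i)) (fun e => by simp)]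
  push_cast
  rfl

omit [Fintype V] in
lemma sum_class {A : Type} [AddCommGroup A] [Fintype (Set.range φ)] (F : Set.range φ → A) (v : V) :
    ∑ i, eps t h φ v i • F i = bd t h (fun e => F (cl φ e)) v := by
  classical
  unfold eps bd
  simp only [Finset.sum_smul]
  rw [Finset.sum_comm]
  refine Finset.sum_congr rfl (fun e _ => ?_)
  rw [Finset.sum_eq_single_of_mem (cl φ e) (Finset.mem_univ _)]
  · have : φ e = ((cl φ e : Set.range φ) : EuclideanSpace ℝ (Fin 3)) := rfl
    rw [if_pos this]
    by_cases h1 : t e = v <;> by_cases h2 : h e = v <;> simp [h1, h2]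
  · intro i _ hi
    have : ¬ φ e = (i : EuclideanSpace ℝ (Fin 3)) := fun h0 => hi ((cl_eq φ e i).mp h0)
    rw [if_neg this]
    simp

lemma sum_cut (g : V → ℤ) (c : E → ℤ) :
    ∑ v, g v * bd t h c v = ∑ e, c e * (g (t e) - g (h e)) := by
  unfold bd
  simp only [Finset.mul_sum]
  rw [Finset.sum_comm]
  refine Finset.sum_congr rfl (fun e _ => ?_)
  simp only [mul_sub, Finset.sum_sub_distrib, mul_ite, mul_zero, Finset.sum_ite_eq, Finset.mem_univ,
    if_true]
  ring

lemma caseX [Fintype (Set.range φ)] [DecidableEq (Set.range φ)] (X : Finset (Set.range φ))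
    (hφ : ∀ v, bd t h φ v = 0)
    (hpar : ∀ v, ∑ i ∈ Xᶜ, (eps t h φ v i : ZMod 2) = 0)
    (hX : ∀ a : Set.range φ → ℤ, ∑ i ∈ X, a i • (i : EuclideanSpace ℝ (Fin 3)) = 0 →
      Even (∑ i ∈ X, a i)) :
    ∃ f : E → ℤ, (∀ e, f e ≠ 0 ∧ |f e| < 4) ∧ ∀ w, bd t h f w = 0 := by
  have hcast : ∀ (u : Set.range φ → ZMod 2) v, bd t h (fun e => u (cl φ e)) v =
      ∑ i, (eps t h φ v i : ZMod 2) * u i := by
    intro u v
    rw [← sum_class t h φ u v]
    refine Finset.sum_congr rfl (fun i _ => ?_)
    rw [zsmul_eq_mul]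
  have hind : ∀ v, bd t h (fun e => if cl φ e ∈ X then (1 : ZMod 2) else 0) v =
      ∑ i ∈ X, (eps t h φ v i : ZMod 2) := by
    intro v
    rw [hcast (fun i => if i ∈ X then (1 : ZMod 2) else 0) v]
    simp only [mul_ite, mul_one, mul_zero]
    rw [← Finset.sum_filter]
    congr 1
    ext i; simp
  obtain ⟨J, hJ1, hJ2⟩ := tjoin t h (fun e => cl φ e ∉ X)
    (fun v => ∑ i ∈ X, (eps t h φ v i : ZMod 2)) (by
      intro g hg
      let a : Set.range φ → ℤ := fun i => ∑ v, ((g v).val : ℤ) * eps t h φ v i
      have ha0 : ∀ i, i ∉ X → a i = 0 := by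
        intro i hi
        change ∑ v, ((g v).val : ℤ) * eps t h φ v i = 0
        unfold eps
        rw [sum_cut t h (fun v => ((g v).val : ℤ))]
        apply Finset.sum_eq_zero
        intro e _
        by_cases he : φ e = (i : EuclideanSpace ℝ (Fin 3))
        · have h1 : i = cl φ e := (cl_eq φ e i).mp he
          have h2 := hg e (h1 ▸ hi)
          rw [h2, sub_self, mul_zero]
        · rw [if_neg he, zero_mul]
      have hsum : ∑ i, a i • (i : EuclideanSpace ℝ (Fin 3)) = 0 := by
        have : ∀ i : Set.range φ, a i • (i : EuclideanSpace ℝ (Fin 3)) =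
            ∑ v, ((g v).val : ℤ) • (eps t h φ v i • (i : EuclideanSpace ℝ (Fin 3))) := by
          intro i
          change (∑ v, ((g v).val : ℤ) * eps t h φ v i) • (i : EuclideanSpace ℝ (Fin 3)) = _
          rw [Finset.sum_smul]
          refine Finset.sum_congr rfl (fun v _ => ?_)
          rw [mul_smul]
        simp only [this]
        rw [Finset.sum_comm]
        apply Finset.sum_eq_zero
        intro v _
        rw [← Finset.smul_sum, sum_class t h φ (fun i => (i : EuclideanSpace ℝ (Fin 3))) v]
        have : bd t h (fun e => ((cl φ e : Set.range φ) : EuclideanSpace ℝ (Fin 3))) v = 0 := hφ v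
        rw [this, smul_zero]
      have hsumX : ∑ i ∈ X, a i • (i : EuclideanSpace ℝ (Fin 3)) = 0 := by
        rw [← hsum]
        apply Finset.sum_subset (Finset.subset_univ _)
        intro i _ hi
        rw [ha0 i hi, zero_smul]
      have hev := hX a hsumX
      have h3 : ((∑ i ∈ X, a i : ℤ) : ZMod 2) = 0 := by
        rw [ZMod.intCast_zmod_eq_zero_iff_dvd]
        exact_mod_cast hev.two_dvd
      rw [← h3]
      push_cast
      have h4 : ∀ v, (((g v).val : ℤ) : ZMod 2) = g v := by
        intro v
        rw [Int.cast_natCast, ZMod.natCast_zmod_val]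
      simp only [a]
      push_cast
      simp only [Finset.mul_sum]
      rw [Finset.sum_comm]
      refine Finset.sum_congr rfl (fun i _ => Finset.sum_congr rfl (fun v _ => ?_))
      have := h4 v
      rw [Int.cast_natCast] at this
      rw [this])
  apply four_flow t h (fun e => (if cl φ e ∈ X then (1 : ZMod 2) else 0) + J e)
    (fun e => if cl φ e ∈ X then (0 : ZMod 2) else 1)
  · intro v
    rw [bd_add, hind, hJ2]
    have : ∀ x : ZMod 2, x + x = 0 := by decide
    exact this _
  · intro v
    rw [hcast (fun i => if i ∈ X then (0 : ZMod 2) else 1) v]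
    simp only [mul_ite, mul_one, mul_zero]
    refine Eq.trans ?_ (hpar v)
    rw [← Finset.sum_filter_add_sum_filter_not (s := (univ : Finset (Set.range φ))) (p := fun i => i ∈ X)]
    rw [Finset.sum_eq_zero, zero_add]
    · have : (univ.filter (fun i => ¬ i ∈ X)) = Xᶜ := by ext i; simp
      rw [this]
      refine Finset.sum_congr rfl (fun i hi => ?_)
      rw [Finset.mem_compl] at hi
      rw [if_neg hi]
    · intro i hi
      rw [Finset.mem_filter] at hi
      rw [if_pos hi.2]
  · intro e
    by_cases he : cl φ e ∈ X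
    · left
      have := hJ1 e (not_not.mpr he)
      rw [if_pos he, this]
      decide
    · right
      rw [if_neg he]
      decide

end Main

lemma norm_zsmul3 (n : ℤ) (x : EuclideanSpace ℝ (Fin 3)) (hx : ‖x‖ = 1) : ‖n • x‖ = |(n : ℝ)| := by
  rw [← Int.cast_smul_eq_zsmul ℝ, norm_smul, hx, mul_one, Real.norm_eq_abs]

/-- If an oriented finite graph has a flow `φ` with values of norm one in the Euclidean 3-space
and the rational span of its balanced vectors has rank at most two, then it has a 4-flow. -/
theorem result : ∀ (V E : Type) [Fintype V] [Fintype E] [DecidableEq V] (tail head : E → V)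
    (φ : E → EuclideanSpace ℝ (Fin 3)), IsFlow tail head φ → (∀ e, ‖φ e‖ = 1) →
    Module.finrank ℚ (Submodule.span ℚ (Set.range (balanced tail head φ))) ≤ 2 →
    ∃ f : E → ℤ, IsFlow tail head f ∧ ∀ e, |f e| < 4 := by
  intro V E _ _ _ t h φ hφ hn hr
  classical
  have : Finite (Set.range φ) := Set.finite_range φ
  have : Fintype (Set.range φ) := Fintype.ofFinite _
  suffices hmain : ∃ f : E → ℤ, (∀ e, f e ≠ 0 ∧ |f e| < 4) ∧ ∀ w, bd t h f w = 0 by
    obtain ⟨f, hf1, hf2⟩ := hmain
    refine ⟨f, ⟨fun e => (hf1 e).1, fun v => ?_⟩, fun e => (hf1 e).2⟩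
    have := hf2 v
    rw [bd_eq, sub_eq_zero] at this
    exact this
  have hφ0 : ∀ v, bd t h φ v = 0 := by
    intro v
    rw [bd_eq, hφ.2 v, sub_self]
  have hr' : Module.finrank ℚ (Submodule.span ℚ
      (Set.range (fun v i => (eps t h φ v i : ℚ)))) ≤ 2 := by
    have : (fun v i => (eps t h φ v i : ℚ)) = balanced t h φ := by
      funext v i; rw [balanced_eq]
    rw [this]; exact hr
  obtain ⟨c1, c2, hc⟩ := f2rank (eps t h φ) hr'
  have hcast : ∀ (u : Set.range φ → ZMod 2) v, bd t h (fun e => u (cl φ e)) v =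
      ∑ i, (eps t h φ v i : ZMod 2) * u i := by
    intro u v
    rw [← sum_class t h φ u v]
    refine Finset.sum_congr rfl (fun i _ => ?_)
    rw [zsmul_eq_mul]
  rcases columns (fun i => (c1 i, c2 i)) with ⟨w, hw, hw1, hw2⟩ | ⟨j, d, hjd⟩
  · apply four_flow t h (fun e => (w (cl φ e)).1) (fun e => (w (cl φ e)).2)
    · intro v
      rw [hcast (fun i => (w i).1) v]
      obtain ⟨a, b, hab⟩ := hc v
      have e1 := congrArg Prod.fst hw1
      have e2 := congrArg Prod.fst hw2
      rw [Prod.fst_sum] at e1 e2
      simp only [Prod.smul_fst, smul_eq_mul, Prod.fst_zero] at e1 e2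
      calc ∑ i, (eps t h φ v i : ZMod 2) * (w i).1 =
          a * ∑ i, c1 i * (w i).1 + b * ∑ i, c2 i * (w i).1 := by
            rw [Finset.mul_sum, Finset.mul_sum, ← Finset.sum_add_distrib]
            refine Finset.sum_congr rfl (fun i _ => ?_)
            rw [hab i]; ring
        _ = 0 := by rw [e1, e2]; ring
    · intro v
      rw [hcast (fun i => (w i).2) v]
      obtain ⟨a, b, hab⟩ := hc v
      have e1 := congrArg Prod.snd hw1
      have e2 := congrArg Prod.snd hw2
      rw [Prod.snd_sum] at e1 e2
      simp only [Prod.smul_snd, smul_eq_mul, Prod.snd_zero] at e1 e2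
      calc ∑ i, (eps t h φ v i : ZMod 2) * (w i).2 =
          a * ∑ i, c1 i * (w i).2 + b * ∑ i, c2 i * (w i).2 := by
            rw [Finset.mul_sum, Finset.mul_sum, ← Finset.sum_add_distrib]
            refine Finset.sum_congr rfl (fun i _ => ?_)
            rw [hab i]; ring
        _ = 0 := by rw [e1, e2]; ring
    · intro e
      have := hw (cl φ e)
      by_contra hcon
      push Not at hcon
      exact this (Prod.ext hcon.1 hcon.2)
  · -- the exceptional case
    let N : Finset (Set.range φ) := univ.filter (fun i => i ≠ j ∧ (c1 i, c2 i) ≠ 0)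
    have hN : ∀ i, i ∈ N ↔ (i ≠ j ∧ (c1 i, c2 i) ≠ 0) := by intro i; simp [N]
    -- the common parity function
    have hβ : ∀ v, ∃ β : ZMod 2, (∀ i ∈ N, (eps t h φ v i : ZMod 2) = β) ∧
        ∀ i, i ≠ j → i ∉ N → (eps t h φ v i : ZMod 2) = 0 := by
      intro v
      obtain ⟨a, b, hab⟩ := hc v
      refine ⟨a * d.1 + b * d.2, ?_, ?_⟩
      · intro i hi
        rw [hN] at hi
        rcases hjd i hi.1 with h1 | h1
        · exact absurd h1 hi.2
        · rw [hab i, ← h1]
      · intro i hi hiN
        rw [hN] at hiN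
        have h1 : (c1 i, c2 i) = 0 := by
          by_contra h2
          exact hiN ⟨hi, h2⟩
        have h2 : c1 i = 0 := congrArg Prod.fst h1
        have h3 : c2 i = 0 := congrArg Prod.snd h1
        rw [hab i, h2, h3]; ring
    have hnorm : ∀ i : Set.range φ, ‖(i : EuclideanSpace ℝ (Fin 3))‖ = 1 := by
      rintro ⟨x, e, rfl⟩
      exact hn e
    rcases Nat.even_or_odd N.card with hev | hodd
    · apply caseX t h φ {j} hφ0
      · intro v
        obtain ⟨β, hb1, hb2⟩ := hβ v
        have : ∑ i ∈ ({j} : Finset (Set.range φ))ᶜ, (eps t h φ v i : ZMod 2) =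
            ∑ i ∈ N, (eps t h φ v i : ZMod 2) := by
          symm
          apply Finset.sum_subset
          · intro i hi
            rw [hN] at hi
            rw [Finset.mem_compl, Finset.mem_singleton]
            exact hi.1
          · intro i hi hiN
            rw [Finset.mem_compl, Finset.mem_singleton] at hi
            exact hb2 i hi hiN
        rw [this, Finset.sum_congr rfl hb1, Finset.sum_const, nsmul_eq_mul]
        have h5 : ((N.card : ℕ) : ZMod 2) = 0 := by
          rw [ZMod.natCast_eq_zero_iff]; exact hev.two_dvd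
        rw [h5, zero_mul]
      · intro a ha
        rw [Finset.sum_singleton] at ha ⊢
        have h6 : a j = 0 := by
          have h7 := norm_zsmul3 (a j) _ (hnorm j)
          rw [ha, norm_zero] at h7
          have := abs_eq_zero.mp h7.symm
          exact_mod_cast this
        rw [h6]; exact ⟨0, rfl⟩
    · obtain ⟨k, hk⟩ : N.Nonempty := by
        rw [← Finset.card_pos]; exact hodd.pos
      have hkj : k ≠ j := ((hN k).mp hk).1
      apply caseX t h φ {j, k} hφ0
      · intro v
        obtain ⟨β, hb1, hb2⟩ := hβ v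
        have : ∑ i ∈ ({j, k} : Finset (Set.range φ))ᶜ, (eps t h φ v i : ZMod 2) =
            ∑ i ∈ N.erase k, (eps t h φ v i : ZMod 2) := by
          symm
          apply Finset.sum_subset
          · intro i hi
            rw [Finset.mem_erase, hN] at hi
            rw [Finset.mem_compl, Finset.mem_insert, Finset.mem_singleton, not_or]
            exact ⟨hi.2.1, hi.1⟩
          · intro i hi hiN
            rw [Finset.mem_compl, Finset.mem_insert, Finset.mem_singleton, not_or] at hi
            rw [Finset.mem_erase] at hiN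
            exact hb2 i hi.1 (fun h8 => hiN ⟨hi.2, h8⟩)
        rw [this, Finset.sum_congr rfl (fun i hi => hb1 i (Finset.mem_of_mem_erase hi)),
          Finset.sum_const, nsmul_eq_mul, Finset.card_erase_of_mem hk]
        have h5 : ((N.card - 1 : ℕ) : ZMod 2) = 0 := by
          rw [ZMod.natCast_eq_zero_iff]
          obtain ⟨m, hm⟩ := hodd
          exact ⟨m, by omega⟩
        rw [h5, zero_mul]
      · intro a ha
        rw [Finset.sum_pair hkj.symm] at ha ⊢
        have h6 : a j • (j : EuclideanSpace ℝ (Fin 3)) = -(a k • (k : EuclideanSpace ℝ (Fin 3))) :=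
          eq_neg_of_add_eq_zero_left ha
        have h7 := norm_zsmul3 (a j) _ (hnorm j)
        rw [h6, norm_neg, norm_zsmul3 (a k) _ (hnorm k)] at h7
        have h8 : |a k| = |a j| := by exact_mod_cast h7
        rcases abs_eq_abs.mp h8 with h9 | h9
        · rw [h9]; exact ⟨a j, rfl⟩
        · rw [h9]; exact ⟨0, by ring⟩

end Pool.Agent.Results.MP_12428a_co.RankTwoFourFlow
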